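import Mathlib

set_option autoImplicit false
set_option linter.unusedSectionVars false

/-!
# Covering dimension and colourings by wandering open sets
-/

namespace Pool.Agent.Helper277_DC

/-- Covering dimension at most `n`: every finite open cover has an open shrinking such that every
point lies in at most `n + 1` of its members. -/
def CovDimLE (X : Type) [TopologicalSpace X] (n : ℕ) : Prop :=
  ∀ (a : ℕ) (U : Fin a → Set X), (∀ i, IsOpen (U i)) → (⋃ i, U i) = Set.univ →
    ∃ V : Fin a → Set X, (∀ i, IsOpen (V i)) ∧ (∀ i, V i ⊆ U i) ∧ (⋃ i, V i) = Set.univ ∧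
      ∀ x, {i | x ∈ V i}.ncard ≤ n + 1

theorem CovDimLE.shrink {X : Type} [TopologicalSpace X] {n : ℕ} (hX : CovDimLE X n) {ι : Type}
    [Finite ι] (U : ι → Set X) (hU : ∀ i, IsOpen (U i)) (hc : (⋃ i, U i) = Set.univ) :
    ∃ V : ι → Set X, (∀ i, IsOpen (V i)) ∧ (∀ i, V i ⊆ U i) ∧ (⋃ i, V i) = Set.univ ∧
      ∀ x, {i | x ∈ V i}.ncard ≤ n + 1 := by
  have := Fintype.ofFinite ι
  let e := Fintype.equivFin ι
  obtain ⟨V, h1, h2, h3, h4⟩ := hX _ (fun i => U (e.symm i)) (fun i => hU _) (by
    rw [← hc]; exact e.symm.surjective.iUnion_comp U)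
  refine ⟨fun i => V (e i), fun i => h1 _, fun i => ?_, ?_, fun x => ?_⟩
  · have := h2 (e i)
    simpa using this
  · rw [← h3]; exact e.surjective.iUnion_comp V
  · refine le_trans (le_of_eq ?_) (h4 x)
    have : {i | x ∈ V (e i)} = e ⁻¹' {i | x ∈ V i} := rfl
    rw [this, Set.ncard_preimage_of_injective_subset_range e.injective (by simp)]

/-- closures of order at most `n + 1` -/
theorem CovDimLE.shrink_closure {X : Type} [TopologicalSpace X] [NormalSpace X] {n : ℕ}
    (hX : CovDimLE X n) {ι : Type}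
    [Finite ι] (U : ι → Set X) (hU : ∀ i, IsOpen (U i)) (hc : (⋃ i, U i) = Set.univ) :
    ∃ V : ι → Set X, (∀ i, IsOpen (V i)) ∧ (∀ i, closure (V i) ⊆ U i) ∧ (⋃ i, V i) = Set.univ ∧
      ∀ x, {i | x ∈ closure (V i)}.ncard ≤ n + 1 := by
  obtain ⟨V, h1, h2, h3, h4⟩ := hX.shrink U hU hc
  obtain ⟨W, h5, h6, h7⟩ := exists_iUnion_eq_closure_subset h1 (fun x => Set.toFinite _) h3
  refine ⟨W, h6, fun i => (h7 i).trans (h2 i), h5, fun x => ?_⟩
  exact (Set.ncard_le_ncard (fun i hi => h7 i hi) (Set.toFinite _)).trans (h4 x)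

section

variable {G X : Type} [Group G] [TopologicalSpace X] [CompactSpace X] [T2Space X] [MulAction G X]
  [ContinuousConstSMul G X]

theorem local_wander (hfree : ∀ (g : G) (x : X), g • x = x → g = 1) (H : Finset G)
    (hH1 : (1:G) ∉ H) : ∃ (L : ℕ) (O : Fin L → Set X), (∀ i, IsOpen (O i)) ∧
      (⋃ i, O i) = Set.univ ∧ ∀ i, ∀ g ∈ H, ∀ x ∈ O i, g • x ∉ O i := by
  classical
  have h1 : ∀ x : X, ∃ N : Set X, IsOpen N ∧ x ∈ N ∧ ∀ g ∈ H, ∀ y ∈ N, g • y ∉ N := by
    intro x
    have h2 : ∀ g : G, ∃ A B : Set X, IsOpen A ∧ IsOpen B ∧ x ∈ A ∧ g • x ∈ B ∧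
        (g ∈ H → Disjoint A B) := by
      intro g
      by_cases hg : g ∈ H
      · have hne : x ≠ g • x := fun h => hH1 ((hfree g x h.symm) ▸ hg)
        obtain ⟨A, B, hA, hB, hxA, hxB, hAB⟩ := t2_separation hne
        exact ⟨A, B, hA, hB, hxA, hxB, fun _ => hAB⟩
      · exact ⟨Set.univ, Set.univ, isOpen_univ, isOpen_univ, trivial, trivial,
          fun h => (hg h).elim⟩
    choose A B hA hB hxA hxB hAB using h2
    refine ⟨⋂ g ∈ H, (A g ∩ (fun y => g • y) ⁻¹' B g), ?_, ?_, ?_⟩
    · exact isOpen_biInter_finset fun g _ => (hA g).inter ((hB g).preimage (continuous_const_smul g))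
    · simp only [Set.mem_iInter]
      exact fun g _ => ⟨hxA g, hxB g⟩
    · intro g hg y hy hgy
      simp only [Set.mem_iInter] at hy hgy
      exact Set.disjoint_left.1 (hAB g hg) (hgy g hg).1 (hy g hg).2
  choose N hN hxN hNw using h1
  obtain ⟨t, -, ht⟩ := isCompact_univ.elim_nhds_subcover N fun x _ => (hN x).mem_nhds (hxN x)
  let e := Fintype.equivFin t
  refine ⟨_, fun i => N (e.symm i), fun i => hN _, ?_, fun i => hNw _⟩
  rw [Set.eq_univ_iff_forall]
  intro x
  obtain ⟨y, hy, hxy⟩ := Set.mem_iUnion₂.1 (ht (Set.mem_univ x))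
  exact Set.mem_iUnion.2 ⟨e ⟨y, hy⟩, by simpa using hxy⟩

theorem exists_coloring (hfree : ∀ (g : G) (x : X), g • x = x → g = 1) (n : ℕ)
    (hX : CovDimLE X n) (H : Finset G) (hH1 : (1:G) ∉ H) (hHs : ∀ g ∈ H, g⁻¹ ∈ H) (r : ℕ)
    (hr : (n + 1) * H.card < r) : ∃ Q : Fin r → Set X, (∀ i, IsOpen (Q i)) ∧
      (⋃ i, Q i) = Set.univ ∧ (∀ i, ∀ g ∈ H, ∀ x ∈ Q i, g • x ∉ Q i) ∧
      ∀ x, {i | x ∈ Q i}.ncard ≤ n + 1 := by
  classical
  obtain ⟨L, O, hO, hOc, hOw⟩ := local_wander hfree H hH1
  induction L with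
  | zero =>
    obtain ⟨Q, h1, h2, h3, h4⟩ := hX.shrink (ι := Fin r) (fun _ => ∅) (fun _ => isOpen_empty) (by
      rw [← hOc]; simp)
    exact ⟨Q, h1, h3, fun i g _ x hx => (h2 i hx).elim, h4⟩
  | succ L ih =>
    by_cases hL : L + 1 ≤ r
    · obtain ⟨Q, h1, h2, h3, h4⟩ := hX.shrink (ι := Fin r)
        (fun i => if h : i.1 < L + 1 then O ⟨i.1, h⟩ else ∅) (fun i => by
          by_cases h : i.1 < L + 1
          · simp only [dif_pos h]; exact hO _
          · simp only [dif_neg h]; exact isOpen_empty) (by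
          rw [Set.eq_univ_iff_forall]
          intro x
          have hx : x ∈ ⋃ i, O i := hOc ▸ Set.mem_univ x
          obtain ⟨i, hi⟩ := Set.mem_iUnion.1 hx
          refine Set.mem_iUnion.2 ⟨⟨i.1, lt_of_lt_of_le i.2 hL⟩, ?_⟩
          simp only [dif_pos i.2]
          exact hi)
      refine ⟨Q, h1, h3, fun i g hg x hx hgx => ?_, h4⟩
      have hx' := h2 i hx
      have hgx' := h2 i hgx
      by_cases h : i.1 < L + 1
      · simp only [dif_pos h] at hx' hgx'
        exact hOw _ g hg x hx' hgx'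
      · simp only [dif_neg h] at hx'
        exact hx'.elim
    · obtain ⟨P, hP, hPO, hPc, hPn⟩ := hX.shrink_closure O hO hOc
      refine ih (fun i => P i.castSucc ∪
        (P (Fin.last L) ∩ ⋂ g ∈ H, (fun x => g • x) ⁻¹' (closure (P i.castSucc))ᶜ)) ?_ ?_ ?_
      · intro i
        refine (hP _).union ((hP _).inter (isOpen_biInter_finset fun g _ => ?_))
        exact isClosed_closure.isOpen_compl.preimage (continuous_const_smul g)
      · rw [Set.eq_univ_iff_forall]
        intro x
        have hx : x ∈ ⋃ i, P i := hPc ▸ Set.mem_univ x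
        obtain ⟨i, hi⟩ := Set.mem_iUnion.1 hx
        rcases Fin.eq_castSucc_or_eq_last i with ⟨i', rfl⟩ | rfl
        · exact Set.mem_iUnion.2 ⟨i', Or.inl hi⟩
        · have key : ∃ i : Fin L, ∀ g ∈ H, g • x ∉ closure (P i.castSucc) := by
            by_contra hcon
            push Not at hcon
            have h1 : (Finset.univ : Finset (Fin L)) ⊆ H.biUnion fun g =>
                Finset.univ.filter fun i => g • x ∈ closure (P i.castSucc) := by
              intro i _
              obtain ⟨g, hg, hgx⟩ := hcon i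
              simp only [Finset.mem_biUnion, Finset.mem_filter, Finset.mem_univ, true_and]
              exact ⟨g, hg, hgx⟩
            have h2 := (Finset.card_le_card h1).trans Finset.card_biUnion_le
            have h3 : ∑ g ∈ H, (Finset.univ.filter fun i : Fin L =>
                g • x ∈ closure (P i.castSucc)).card ≤ ∑ g ∈ H, (n + 1) := by
              refine Finset.sum_le_sum fun g _ => ?_
              have h4 := hPn (g • x)
              refine le_trans ?_ h4
              rw [← Set.ncard_coe_finset]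
              refine Set.ncard_le_ncard_of_injOn Fin.castSucc ?_ ?_ (Set.toFinite _)
              · intro i hi
                simpa using hi
              · exact (Fin.castSucc_injective L).injOn
            rw [Finset.sum_const, smul_eq_mul] at h3
            rw [Finset.card_univ, Fintype.card_fin] at h2
            have h5 : H.card * (n + 1) = (n + 1) * H.card := mul_comm _ _
            omega
          obtain ⟨i, hi'⟩ := key
          refine Set.mem_iUnion.2 ⟨i, Or.inr ⟨hi, ?_⟩⟩
          simp only [Set.mem_iInter]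
          exact fun g hg => hi' g hg
      · intro i g hg x hx hgx
        rcases hx with hx | ⟨hx, hx'⟩
        · rcases hgx with hgx | ⟨hgx, hgx'⟩
          · exact hOw _ g hg x (hPO _ (subset_closure hx)) (hPO _ (subset_closure hgx))
          · simp only [Set.mem_iInter] at hgx'
            have := hgx' g⁻¹ (hHs g hg)
            simp only [Set.mem_preimage, inv_smul_smul] at this
            exact this (subset_closure hx)
        · rcases hgx with hgx | ⟨hgx, hgx'⟩
          · simp only [Set.mem_iInter] at hx'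
            exact hx' g hg (subset_closure hgx)
          · exact hOw _ g hg x (hPO _ (subset_closure hx)) (hPO _ (subset_closure hgx))

end

end Pool.Agent.Helper277_DC
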