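import Pool.Agent.Helper277_DC.FreePP

set_option autoImplicit false
set_option linter.unusedSectionVars false

/-!
# Families of elements of a free group in general position with respect to automorphisms
-/

namespace Pool.Agent.Helper277_DC

section TF

variable {F : Type} [Group F] [IsMulTorsionFree F]

theorem pow_inj {x y : F} {n : ℕ} (hn : n ≠ 0) (h : x ^ n = y ^ n) : x = y :=
  pow_left_injective hn h

theorem commute_of_pow {x y : F} {n : ℕ} (hn : n ≠ 0) (h : x * y ^ n = y ^ n * x) :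
    x * y = y * x := by
  have h1 : (x * y * x⁻¹) ^ n = y ^ n := by
    rw [conj_pow, h, mul_inv_cancel_right]
  have h2 := pow_inj hn h1
  rw [← h2, inv_mul_cancel_right, h2]

theorem exists_moved (S : Finset (F ≃* F)) (hS : ∀ τ ∈ S, ∃ w, τ w ≠ w) :
    ∃ x, ∀ τ ∈ S, τ x ≠ x := by
  classical
  induction S using Finset.induction_on with
  | empty => exact ⟨1, by simp⟩
  | insert τ₀ S hτ₀ ih =>
    obtain ⟨x, hx⟩ := ih fun τ hτ => hS τ (Finset.mem_insert_of_mem hτ)
    by_cases h0 : τ₀ x = x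
    · obtain ⟨w, hw⟩ := hS τ₀ (Finset.mem_insert_self _ _)
      have hfin : (⋃ τ ∈ S, {n : ℕ | τ (x ^ n * w) = x ^ n * w}).Finite := by
        refine Set.Finite.biUnion S.finite_toSet fun τ hτ => Set.Subsingleton.finite ?_
        have key : ∀ n m : ℕ, n < m → τ (x ^ n * w) = x ^ n * w → τ (x ^ m * w) = x ^ m * w →
            False := by
          intro n m hnm h1 h2
          obtain ⟨k, rfl⟩ : ∃ k, m = k + n := ⟨m - n, by omega⟩
          apply hx τ hτ
          refine pow_inj (n := k) (by omega) ?_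
          rw [pow_add, mul_assoc, map_mul, h1, map_pow] at h2
          exact mul_right_cancel h2
        intro n hn m hm
        rcases lt_trichotomy n m with h | h | h
        · exact (key n m h hn hm).elim
        · exact h
        · exact (key m n h hm hn).elim
      obtain ⟨n, hn⟩ := hfin.exists_notMem
      refine ⟨x ^ n * w, fun τ hτ => ?_⟩
      rcases Finset.mem_insert.1 hτ with rfl | hτ'
      · rw [map_mul, map_pow, h0]
        exact fun h => hw (mul_left_cancel h)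
      · intro h
        exact hn (Set.mem_iUnion₂.2 ⟨τ, hτ', h⟩)
    · refine ⟨x, fun τ hτ => ?_⟩
      rcases Finset.mem_insert.1 hτ with rfl | hτ'
      · exact h0
      · exact hx τ hτ'

theorem exists_generic (S : Finset (F ≃* F)) (hS : ∀ τ ∈ S, ∃ w, τ w ≠ w) (Y : Finset F)
    {a₀ b₀ : F} (hab : a₀ * b₀ ≠ b₀ * a₀) :
    ∃ g, (∀ τ ∈ S, τ g ≠ g) ∧ ∀ z ∈ Y, ∀ a b : ℕ, a ≠ 0 → b ≠ 0 → g ^ a ≠ z ^ b := by
  classical
  obtain ⟨x, hx⟩ := exists_moved (insert (MulAut.conj a₀ : F ≃* F) S) (by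
    intro τ hτ
    rcases Finset.mem_insert.1 hτ with rfl | hτ'
    · refine ⟨b₀, fun h => hab ?_⟩
      rw [MulAut.conj_apply] at h
      exact mul_inv_eq_iff_eq_mul.1 h
    · exact hS τ hτ')
  have hxa : x * a₀ ≠ a₀ * x := by
    intro h
    apply hx _ (Finset.mem_insert_self _ _)
    rw [MulAut.conj_apply, ← h, mul_inv_cancel_right]
  have hxS : ∀ τ ∈ S, τ x ≠ x := fun τ hτ => hx τ (Finset.mem_insert_of_mem hτ)
  have hfin1 : (⋃ τ ∈ S, {n : ℕ | τ (x * a₀ ^ n) = x * a₀ ^ n}).Finite := by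
    refine Set.Finite.biUnion S.finite_toSet fun τ hτ => Set.Subsingleton.finite ?_
    have key : ∀ n m : ℕ, n < m → τ (x * a₀ ^ n) = x * a₀ ^ n → τ (x * a₀ ^ m) = x * a₀ ^ m →
        False := by
      intro n m hnm h1 h2
      obtain ⟨k, rfl⟩ : ∃ k, m = n + k := ⟨m - n, by omega⟩
      have h3 : τ a₀ = a₀ := by
        refine pow_inj (n := k) (by omega) ?_
        rw [pow_add, ← mul_assoc, map_mul, h1, map_pow] at h2
        exact mul_left_cancel h2
      rw [map_mul, map_pow, h3] at h1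
      exact hxS τ hτ (mul_right_cancel h1)
    intro n hn m hm
    rcases lt_trichotomy n m with h | h | h
    · exact (key n m h hn hm).elim
    · exact h
    · exact (key m n h hm hn).elim
  have hfin2 : (⋃ z ∈ Y, {n : ℕ | ∃ a b : ℕ, a ≠ 0 ∧ b ≠ 0 ∧ (x * a₀ ^ n) ^ a = z ^ b}).Finite := by
    refine Set.Finite.biUnion Y.finite_toSet fun z _ => Set.Subsingleton.finite ?_
    have key : ∀ n m : ℕ, n < m → (∃ a b : ℕ, a ≠ 0 ∧ b ≠ 0 ∧ (x * a₀ ^ n) ^ a = z ^ b) →
        (∃ a b : ℕ, a ≠ 0 ∧ b ≠ 0 ∧ (x * a₀ ^ m) ^ a = z ^ b) → False := by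
      rintro n m hnm ⟨a, b, ha, hb, h1⟩ ⟨a', b', ha', hb', h2⟩
      obtain ⟨k, rfl⟩ : ∃ k, m = n + k := ⟨m - n, by omega⟩
      set G1 := x * a₀ ^ n with hG1
      set G2 := x * a₀ ^ (n + k) with hG2
      have h3 : G1 ^ (a * b') = G2 ^ (a' * b) := by
        rw [pow_mul, pow_mul, h1, h2, ← pow_mul, ← pow_mul, mul_comm]
      have h4 : G1 * G2 = G2 * G1 := by
        refine commute_of_pow (n := a' * b) (Nat.mul_ne_zero ha' hb) ?_
        rw [← h3, ← pow_succ, ← pow_succ']
      have h5 : G2 = G1 * a₀ ^ k := by rw [hG1, hG2, pow_add, mul_assoc]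
      have h6 : G1 * a₀ ^ k = a₀ ^ k * G1 := by
        have h45 : G1 * (G1 * a₀ ^ k) = G1 * (a₀ ^ k * G1) := by
          rw [← mul_assoc G1 (a₀ ^ k) G1, ← h5]
          exact h4
        exact mul_left_cancel h45
      have h7 : G1 * a₀ = a₀ * G1 := commute_of_pow (by omega) h6
      rw [hG1, mul_assoc, ← pow_succ, pow_succ', ← mul_assoc, ← mul_assoc] at h7
      exact hxa (mul_right_cancel h7)
    intro n hn m hm
    rcases lt_trichotomy n m with h | h | h
    · exact (key n m h hn hm).elim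
    · exact h
    · exact (key m n h hm hn).elim
  obtain ⟨n, hn⟩ := (hfin1.union hfin2).exists_notMem
  refine ⟨x * a₀ ^ n, fun τ hτ h => hn (Or.inl (Set.mem_iUnion₂.2 ⟨τ, hτ, h⟩)),
    fun z hz a b ha hb h => hn (Or.inr (Set.mem_iUnion₂.2 ⟨z, hz, a, b, ha, hb, h⟩))⟩

end TF

section

variable {α : Type}

theorem aut_le (τ : FreeGroup α ≃* FreeGroup α) {g : FreeGroup α} (hg : g ≠ 1) {a b : ℕ}
    (hb : b ≠ 0) (h : (τ g) ^ a = g ^ b) : a ≤ b := by
  classical
  have h1 : ∀ k : ℕ, (τ^[k] g) ^ (a ^ k) = g ^ (b ^ k) := by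
    intro k
    induction k with
    | zero => simp
    | succ k ih =>
      rw [Function.iterate_succ', Function.comp_apply, pow_succ a, pow_mul, ← map_pow, ih, map_pow,
        ← pow_mul, mul_comm, pow_mul, h, ← pow_mul, ← pow_succ']
  have h2 : ∀ k : ℕ, τ^[k] g ≠ 1 := by
    intro k
    induction k with
    | zero => simpa using hg
    | succ k ih =>
      rw [Function.iterate_succ', Function.comp_apply]
      intro h3
      exact ih ((map_eq_one_iff τ τ.injective).1 h3)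
  have h3 : ∀ k : ℕ, a ^ k ≤ b ^ k * FreeGroup.norm g := by
    intro k
    refine (le_norm_pow (h2 k) (a ^ k)).trans ?_
    rw [h1]
    exact norm_pow_le g _
  by_contra hcon
  push Not at hcon
  set n := FreeGroup.norm g with hn
  have h4 := h3 (b * n)
  have h5 : (b + 1) ^ (b * n) ≤ b ^ (b * n) * n := (Nat.pow_le_pow_left hcon _).trans h4
  have hb0 : (0:ℝ) < b := by positivity
  have h6 : ((b:ℝ) + 1) ^ (b * n) ≤ (b:ℝ) ^ (b * n) * n := by exact_mod_cast h5
  have h7 : ((b:ℝ) + 1) ^ (b * n) = (b:ℝ) ^ (b * n) * (1 + 1 / b) ^ (b * n) := by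
    rw [← mul_pow]
    congr 1
    field_simp
  rw [h7] at h6
  have h8 : (1 + 1 / (b:ℝ)) ^ (b * n) ≤ n := le_of_mul_le_mul_left h6 (by positivity)
  have h9 : 1 + ((b * n : ℕ) : ℝ) * (1 / (b:ℝ)) ≤ (1 + 1 / (b:ℝ)) ^ (b * n) :=
    one_add_mul_le_pow (by
      have : (0:ℝ) < 1 / b := by positivity
      linarith) _
  have h10 : ((b * n : ℕ) : ℝ) * (1 / (b:ℝ)) = n := by
    push_cast
    field_simp
  rw [h10] at h9
  linarith

theorem aut_pow_eq (τ : FreeGroup α ≃* FreeGroup α) {g : FreeGroup α} {a b : ℕ} (ha : a ≠ 0)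
    (hb : b ≠ 0) (h : (τ g) ^ a = g ^ b) : τ g = g := by
  by_cases hg : g = 1
  · rw [hg, map_one]
  have h1 := aut_le τ hg hb h
  have h2 : b ≤ a := by
    refine aut_le τ.symm hg ha ?_
    have h3 := congrArg τ.symm h
    rw [map_pow, map_pow, MulEquiv.symm_apply_apply] at h3
    exact h3.symm
  have h3 : a = b := le_antisymm h1 h2
  subst h3
  exact pow_inj ha h

theorem exists_family_fin {D : Type} [Finite D] (σ : D → FreeGroup α ≃* FreeGroup α)
    {a₀ b₀ : FreeGroup α} (hab : a₀ * b₀ ≠ b₀ * a₀) (k : ℕ) :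
    ∃ g : Fin k → FreeGroup α, (∀ i, g i ≠ 1) ∧
      (∀ i d d', σ d ≠ σ d' → ∀ a b : ℕ, a ≠ 0 → b ≠ 0 → (σ d (g i)) ^ a ≠ (σ d' (g i)) ^ b) ∧
      (∀ i i', i ≠ i' → ∀ d d', ∀ a b : ℕ, a ≠ 0 → b ≠ 0 →
        (σ d (g i)) ^ a ≠ (σ d' (g i')) ^ b) := by
  classical
  have := Fintype.ofFinite D
  induction k with
  | zero => exact ⟨Fin.elim0, fun i => i.elim0, fun i => i.elim0, fun i => i.elim0⟩
  | succ k ih =>
    obtain ⟨g, hg1, hg2, hg3⟩ := ih
    obtain ⟨g', hg'1, hg'2⟩ := exists_generic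
      ((Finset.univ.filter fun p : D × D => σ p.1 ≠ σ p.2).image
        fun p => (σ p.1).trans (σ p.2).symm)
      (by
        intro τ hτ
        obtain ⟨p, hp, rfl⟩ := Finset.mem_image.1 hτ
        have hp' := (Finset.mem_filter.1 hp).2
        by_contra hcon
        push Not at hcon
        apply hp'
        refine MulEquiv.ext fun w => ?_
        have h1 := hcon w
        rw [MulEquiv.trans_apply, MulEquiv.symm_apply_eq] at h1
        exact h1)
      (insert 1 ((Finset.univ : Finset (D × D × Fin k)).image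
        fun p => (σ p.1).symm (σ p.2.1 (g p.2.2)))) hab
    have hnew : ∀ d d' i a b, a ≠ 0 → b ≠ 0 → (σ d g') ^ a ≠ (σ d' (g i)) ^ b := by
      intro d d' i a b ha hb h
      refine hg'2 ((σ d).symm (σ d' (g i))) (Finset.mem_insert_of_mem
        (Finset.mem_image.2 ⟨(d, d', i), Finset.mem_univ _, rfl⟩)) a b ha hb ?_
      rw [← map_pow, ← h, map_pow, MulEquiv.symm_apply_apply]
    refine ⟨Fin.snoc g g', fun i => ?_, fun i d d' hd a b ha hb => ?_,
      fun i i' hii d d' a b ha hb => ?_⟩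
    · rcases Fin.eq_castSucc_or_eq_last i with ⟨i, rfl⟩ | rfl
      · rw [Fin.snoc_castSucc]; exact hg1 i
      · rw [Fin.snoc_last]
        intro h
        refine hg'2 1 (Finset.mem_insert_self _ _) 1 1 one_ne_zero one_ne_zero ?_
        rw [h]
    · rcases Fin.eq_castSucc_or_eq_last i with ⟨i, rfl⟩ | rfl
      · rw [Fin.snoc_castSucc]; exact hg2 i d d' hd a b ha hb
      · rw [Fin.snoc_last]
        intro h
        refine hg'1 ((σ d).trans (σ d').symm) (Finset.mem_image.2 ⟨(d, d'),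
          Finset.mem_filter.2 ⟨Finset.mem_univ _, hd⟩, rfl⟩) ?_
        refine aut_pow_eq _ ha hb ?_
        rw [MulEquiv.trans_apply, ← map_pow, h, map_pow, MulEquiv.symm_apply_apply]
    · rcases Fin.eq_castSucc_or_eq_last i with ⟨i, rfl⟩ | rfl
      · rcases Fin.eq_castSucc_or_eq_last i' with ⟨i', rfl⟩ | rfl
        · rw [Fin.snoc_castSucc, Fin.snoc_castSucc]
          exact hg3 i i' (fun h => hii (by rw [h])) d d' a b ha hb
        · rw [Fin.snoc_castSucc, Fin.snoc_last]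
          exact fun h => hnew d' d i b a hb ha h.symm
      · rcases Fin.eq_castSucc_or_eq_last i' with ⟨i', rfl⟩ | rfl
        · rw [Fin.snoc_castSucc, Fin.snoc_last]
          exact hnew d d' i' a b ha hb
        · exact (hii rfl).elim

/-- Ping-pong for a family of elements in general position with respect to finitely many
automorphisms. -/
theorem pingpong_family {D ι : Type} [Finite D] [Finite ι] (σ : D → FreeGroup α ≃* FreeGroup α)
    {a₀ b₀ : FreeGroup α} (hab : a₀ * b₀ ≠ b₀ * a₀) :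
    ∃ (t : ι → FreeGroup α) (P N : D → ι → Set (FreeGroup α)),
      (∀ d i γ, γ ∉ N d i → σ d (t i) * γ ∈ P d i) ∧
      (∀ d i d' i', (i ≠ i' ∨ σ d ≠ σ d') → Disjoint (P d i) (P d' i')) ∧
      (∀ d i d' i', (i ≠ i' ∨ σ d ≠ σ d') → Disjoint (N d i) (N d' i')) := by
  classical
  have := Fintype.ofFinite D
  have := Fintype.ofFinite ι
  let e := Fintype.equivFin ι
  obtain ⟨g, hg1, hg2, hg3⟩ := exists_family_fin σ hab (Fintype.card ι)
  have hne : ∀ d i, σ d (g i) ≠ 1 := fun d i h =>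
    hg1 i ((map_eq_one_iff (σ d) (σ d).injective).1 h)
  have hdec : ∀ d i, ∃ u c, Dec (σ d (g i)) u c := fun d i => Dec.exists (hne d i)
  choose u c hdec using hdec
  have hsep : ∀ d i d' i', (i ≠ i' ∨ σ d ≠ σ d') → ∀ a b : ℕ, a ≠ 0 → b ≠ 0 →
      (σ d (g i)) ^ a ≠ (σ d' (g i')) ^ b := by
    intro d i d' i' h a b ha hb
    by_cases hi : i = i'
    · subst hi
      exact hg2 i d d' (h.resolve_left fun h => h rfl) a b ha hb
    · exact hg3 i i' hi d d' a b ha hb
  have h1 : ∀ q : (D × Fin (Fintype.card ι)) × (D × Fin (Fintype.card ι)), ∃ K₀ : ℕ, ∀ K ≥ K₀,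
      (q.1.2 ≠ q.2.2 ∨ σ q.1.1 ≠ σ q.2.1) →
        Disjoint (Pre (u q.1.1 q.1.2) (c q.1.1 q.1.2) K)
          (Pre (u q.2.1 q.2.2) (c q.2.1 q.2.2) K) ∧
        Disjoint (Pre (u q.1.1 q.1.2) (FreeGroup.invRev (c q.1.1 q.1.2)) K)
          (Pre (u q.2.1 q.2.2) (FreeGroup.invRev (c q.2.1 q.2.2)) K) := by
    rintro ⟨⟨d, i⟩, ⟨d', i'⟩⟩
    simp only
    by_cases hq : (i ≠ i' ∨ σ d ≠ σ d')
    · obtain ⟨K1, hK1⟩ := (hdec d i).disjoint (hdec d' i') (hsep d i d' i' hq)
      obtain ⟨K2, hK2⟩ := (hdec d i).inv.disjoint (hdec d' i').inv (by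
        intro a b ha hb h
        rw [inv_pow, inv_pow, inv_inj] at h
        exact hsep d i d' i' hq a b ha hb h)
      exact ⟨max K1 K2, fun K hK _ => ⟨hK1 K ((le_max_left _ _).trans hK),
        hK2 K ((le_max_right _ _).trans hK)⟩⟩
    · exact ⟨0, fun K _ h => (hq h).elim⟩
  choose K₀ hK₀ using h1
  set K := (Finset.univ.sup K₀) + 1 with hK
  have hKle : ∀ q, K₀ q ≤ K := fun q => (Finset.le_sup (Finset.mem_univ q)).trans (Nat.le_succ _)
  refine ⟨fun i => g (e i) ^ (2 * K), fun d i => Pre (u d (e i)) (c d (e i)) K,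
    fun d i => Pre (u d (e i)) (FreeGroup.invRev (c d (e i))) K, fun d i γ hγ => ?_,
    fun d i d' i' h => ?_, fun d i d' i' h => ?_⟩
  · rw [map_pow]
    exact (hdec d (e i)).ping (by omega) hγ
  · refine (hK₀ ((d, e i), (d', e i')) K (hKle _) ?_).1
    rcases h with h | h
    · exact Or.inl fun h' => h (e.injective h')
    · exact Or.inr h
  · refine (hK₀ ((d, e i), (d', e i')) K (hKle _) ?_).2
    rcases h with h | h
    · exact Or.inl fun h' => h (e.injective h')
    · exact Or.inr h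

end

end Pool.Agent.Helper277_DC
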