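import Mathlib

set_option autoImplicit false
set_option linter.unusedSectionVars false

/-!
# Comparison from towers in the group
-/

namespace Pool.Agent.Helper277_DC

open Finset

variable {G X : Type} [Group G] [TopologicalSpace X] [CompactSpace X] [T2Space X] [MulAction G X]
  [ContinuousConstSMul G X]

open Classical in
/-- mass of the set `A` at `x` -/
noncomputable def mass (F : Finset G) (N : X → G → ℝ) (A : Set G) (x : X) : ℝ :=
  ∑ h ∈ F, N x h * (if h ∈ A then 1 else 0)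

open Classical in
theorem mass_continuous (F : Finset G) (N : X → G → ℝ) (hNc : ∀ h, Continuous fun x => N x h)
    (A : Set G) : Continuous fun x => mass F N A x := by
  unfold mass
  exact continuous_finsetSum _ fun h _ => (hNc h).mul continuous_const

open Classical in
theorem mass_move (F : Finset G) (N : X → G → ℝ) (hN0 : ∀ x h, 0 ≤ N x h)
    (hNF : ∀ x h, h ∉ F → N x h = 0) (g : G) (x : X) (ε : ℝ)
    (hg : ∑ h ∈ F, |N (g • x) (g * h) - N x h| ≤ ε) (A : Set G) :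
    mass F N A x ≤ ∑ v ∈ F, N (g • x) v * (if g⁻¹ * v ∈ A then 1 else 0) + ε := by
  unfold mass
  have h1 : ∑ h ∈ F, N x h * (if h ∈ A then (1:ℝ) else 0) ≤
      ∑ h ∈ F, (N (g • x) (g * h) * (if h ∈ A then 1 else 0) + |N (g • x) (g * h) - N x h|) := by
    refine Finset.sum_le_sum fun h _ => ?_
    split_ifs
    · have := neg_abs_le (N (g • x) (g * h) - N x h)
      linarith
    · have := abs_nonneg (N (g • x) (g * h) - N x h)
      simp
  rw [Finset.sum_add_distrib] at h1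
  have h2 : ∑ h ∈ F, N (g • x) (g * h) * (if h ∈ A then (1:ℝ) else 0) ≤
      ∑ v ∈ F, N (g • x) v * (if g⁻¹ * v ∈ A then 1 else 0) := by
    have h3 : ∑ h ∈ F, N (g • x) (g * h) * (if h ∈ A then (1:ℝ) else 0) =
        ∑ v ∈ F.image (fun h => g * h), N (g • x) v * (if g⁻¹ * v ∈ A then 1 else 0) := by
      rw [Finset.sum_image (fun a _ b _ hab => mul_left_cancel hab)]
      simp only [inv_mul_cancel_left]
    rw [h3]
    have h4 : ∑ v ∈ F.image (fun h => g * h), N (g • x) v * (if g⁻¹ * v ∈ A then (1:ℝ) else 0) =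
        ∑ v ∈ (F.image (fun h => g * h)).filter (· ∈ F),
          N (g • x) v * (if g⁻¹ * v ∈ A then 1 else 0) := by
      rw [Finset.sum_filter]
      refine Finset.sum_congr rfl fun v _ => ?_
      by_cases hv : v ∈ F
      · rw [if_pos hv]
      · rw [if_neg hv, hNF _ v hv, zero_mul]
    rw [h4]
    refine Finset.sum_le_sum_of_subset_of_nonneg ?_ fun v _ _ => mul_nonneg (hN0 _ _) ?_
    · intro v hv
      exact (Finset.mem_filter.1 hv).2
    · split_ifs <;> norm_num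
  linarith

open Classical in
/-- Towers in the group and a colouring of the space give comparison. -/
theorem tower (V : Set X) (hV : IsOpen V) (D : Finset G) (hD : ∀ x : X, ∃ d ∈ D, d • x ∈ V)
    {K R : Type} [Fintype K] [Nonempty K] [Fintype R] (t : K → R → G) (A : K → R → Set G)
    (hA : ∀ h χ, 3 * Fintype.card K ≤ 4 * (univ.filter fun κ => h ∈ A κ χ).card)
    (O : R → Set X) (hO : ∀ χ, IsOpen (O χ)) (hOc : (⋃ χ, O χ) = Set.univ)
    (hdis : ∀ d ∈ D, ∀ d' ∈ D, ∀ κ κ' χ χ', ∀ h ∈ A κ χ, ∀ h' ∈ A κ' χ',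
      d * t κ χ * h = d' * t κ' χ' * h' → κ = κ' ∧ χ = χ' ∧
        ∀ x ∈ O χ, ∀ x' ∈ O χ, (d * t κ χ) • x = (d' * t κ χ) • x' → d = d')
    (F : Finset G) (N : X → G → ℝ) (hN0 : ∀ x h, 0 ≤ N x h) (hNc : ∀ h, Continuous fun x => N x h)
    (hNF : ∀ x h, h ∉ F → N x h = 0) (hN1 : ∀ x, ∑ h ∈ F, N x h = 1)
    (hNi : ∀ d ∈ D, ∀ κ χ x, ∑ h ∈ F, |N ((d * t κ χ) • x) (d * t κ χ * h) - N x h| ≤ 1 / 8) :
    ∃ (p : ℕ) (W : Fin p → Set X) (s : Fin p → G), (∀ i, IsOpen (W i)) ∧
      (Set.univ ⊆ ⋃ i, W i) ∧ (∀ i, (fun x => s i • x) '' W i ⊆ V) ∧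
      Pairwise (fun i j => Disjoint ((fun x => s i • x) '' W i) ((fun x => s j • x) '' W j)) := by
  set W : K × R × D → Set X := fun e => {x | x ∈ O e.2.1 ∧ 5 / 8 < mass F N (A e.1 e.2.1) x ∧
    ((e.2.2 : G) * t e.1 e.2.1) • x ∈ V} with hW
  let e := Fintype.equivFin (K × R × D)
  refine ⟨_, fun i => W (e.symm i), fun i => ((e.symm i).2.2 : G) * t (e.symm i).1 (e.symm i).2.1,
    fun i => ?_, fun x _ => ?_, fun i => ?_, fun i j hij => ?_⟩
  · refine (hO _).inter ((isOpen_lt continuous_const (mass_continuous F N hNc _)).inter ?_)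
    exact hV.preimage (continuous_const_smul _)
  · -- covering
    obtain ⟨χ, hχ⟩ := Set.mem_iUnion.1 (hOc ▸ Set.mem_univ x)
    have hsum : 3 / 4 * (Fintype.card K : ℝ) ≤ ∑ κ, mass F N (A κ χ) x := by
      have h1 : ∑ κ, mass F N (A κ χ) x =
          ∑ h ∈ F, N x h * ((univ.filter fun κ => h ∈ A κ χ).card : ℝ) := by
        unfold mass
        rw [Finset.sum_comm]
        refine Finset.sum_congr rfl fun h _ => ?_
        rw [← Finset.mul_sum, Finset.sum_boole]
      rw [h1]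
      have h2 : ∀ h ∈ F, N x h * (3 / 4 * (Fintype.card K : ℝ)) ≤
          N x h * ((univ.filter fun κ => h ∈ A κ χ).card : ℝ) := by
        intro h _
        refine mul_le_mul_of_nonneg_left ?_ (hN0 _ _)
        have h3 : (3 * Fintype.card K : ℝ) ≤ 4 * ((univ.filter fun κ => h ∈ A κ χ).card : ℝ) := by
          exact_mod_cast hA h χ
        linarith
      have h4 := Finset.sum_le_sum h2
      rwa [← Finset.sum_mul, hN1, one_mul] at h4
    have hex : ∃ κ, 5 / 8 < mass F N (A κ χ) x := by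
      by_contra hcon
      push Not at hcon
      have h1 : ∑ κ, mass F N (A κ χ) x ≤ ∑ κ : K, (5 / 8 : ℝ) :=
        Finset.sum_le_sum fun κ _ => hcon κ
      rw [Finset.sum_const, nsmul_eq_mul, Finset.card_univ] at h1
      have h2 : (0:ℝ) < Fintype.card K := by exact_mod_cast Fintype.card_pos
      linarith
    obtain ⟨κ, hκ⟩ := hex
    obtain ⟨d, hd, hdx⟩ := hD (t κ χ • x)
    refine Set.mem_iUnion.2 ⟨e (κ, χ, ⟨d, hd⟩), ?_⟩
    simp only [Equiv.symm_apply_apply]
    exact ⟨hχ, hκ, by rw [mul_smul]; exact hdx⟩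
  · rintro _ ⟨x, hx, rfl⟩
    exact hx.2.2
  · simp only
    rw [Set.disjoint_left]
    rintro _ ⟨x, hx, rfl⟩ ⟨x', hx', hxx⟩
    simp only at hxx
    apply hij
    apply e.symm.injective
    generalize e.symm i = p at hx hxx ⊢
    generalize e.symm j = p' at hx' hxx ⊢
    obtain ⟨κ, χ, ⟨d, hd⟩⟩ := p
    obtain ⟨κ', χ', ⟨d', hd'⟩⟩ := p'
    obtain ⟨hx1, hx2, -⟩ := hx
    obtain ⟨hx1', hx2', -⟩ := hx'
    simp only at hx1 hx2 hx1' hx2' hxx
    have m1 := mass_move F N hN0 hNF (d * t κ χ) x (1/8) (hNi d hd κ χ x) (A κ χ)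
    have m2 := mass_move F N hN0 hNF (d' * t κ' χ') x' (1/8) (hNi d' hd' κ' χ' x') (A κ' χ')
    rw [hxx] at m2
    set y := (d * t κ χ) • x with hy
    have hv : ∃ v, (d * t κ χ)⁻¹ * v ∈ A κ χ ∧ (d' * t κ' χ')⁻¹ * v ∈ A κ' χ' := by
      by_contra hcon
      push Not at hcon
      have h1 : ∑ v ∈ F, N y v * (if (d * t κ χ)⁻¹ * v ∈ A κ χ then (1:ℝ) else 0) +
          ∑ v ∈ F, N y v * (if (d' * t κ' χ')⁻¹ * v ∈ A κ' χ' then (1:ℝ) else 0) ≤ 1 := by
        rw [← Finset.sum_add_distrib]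
        refine le_trans (Finset.sum_le_sum fun v _ => ?_) (hN1 y).le
        rw [← mul_add]
        refine (mul_le_mul_of_nonneg_left ?_ (hN0 y v)).trans (mul_one _).le
        by_cases h2 : (d * t κ χ)⁻¹ * v ∈ A κ χ
        · rw [if_pos h2, if_neg (hcon v h2)]; norm_num
        · rw [if_neg h2]
          split_ifs <;> norm_num
      linarith
    obtain ⟨v, hv1, hv2⟩ := hv
    obtain ⟨rfl, rfl, h3⟩ := hdis d hd d' hd' κ κ' χ χ' _ hv1 _ hv2 (by
      rw [mul_inv_cancel_left, mul_inv_cancel_left])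
    have h4 := h3 x hx1 x' hx1' hxx.symm
    subst h4
    rfl

end Pool.Agent.Helper277_DC
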