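import Pool.Agent.Helper277_DC.FreeFam
import Pool.Agent.Helper277_DC.Tower
import Pool.Agent.Helper277_DC.Color

set_option autoImplicit false
set_option linter.unusedSectionVars false

/-!
# Comparison for groups with a nonabelian free normal subgroup
-/

namespace Pool.Agent.Helper277_DC

open Finset

section Section

variable {G : Type} [Group G] (Γ : Subgroup G) [Γ.Normal]

/-- an equivariant map from `G` to the normal subgroup -/
noncomputable def sect (g : G) : Γ :=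
  ⟨g * ((g : G ⧸ Γ).out)⁻¹, by
    have h1 : ((g : G ⧸ Γ).out)⁻¹ * g ∈ Γ := by
      rw [← QuotientGroup.eq, QuotientGroup.out_eq']
    exact (Subgroup.Normal.mem_comm_iff (inferInstance : Γ.Normal)).1 h1⟩

theorem sect_mul (γ : Γ) (g : G) : sect Γ ((γ : G) * g) = γ * sect Γ g := by
  have h1 : (((γ : G) * g : G) : G ⧸ Γ) = (g : G ⧸ Γ) := by
    rw [QuotientGroup.eq, mul_inv_rev, mul_assoc]
    have h2 := (inferInstance : Γ.Normal).conj_mem (γ : G)⁻¹ (Γ.inv_mem γ.2) g⁻¹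
    rwa [inv_inv, mul_assoc] at h2
  apply Subtype.ext
  simp only [sect, Subgroup.coe_mul]
  rw [h1, mul_assoc]

end Section

variable {G X : Type} [Group G] [TopologicalSpace X] [CompactSpace X] [T2Space X] [MulAction G X]
  [ContinuousConstSMul G X]

theorem exists_field (T : Finset G) (ε : ℝ) (hε : 0 < ε)
    (ham : ∃ m : ℕ → X → G → ℝ,
      (∀ n x h, 0 ≤ m n x h) ∧
      (∀ n h, Continuous (fun x => m n x h)) ∧
      (∀ n, ∃ F : Finset G, (∀ x h, h ∉ F → m n x h = 0) ∧ ∀ x, ∑ h ∈ F, m n x h = 1) ∧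
      ∀ g : G, ∀ ε : ℝ, 0 < ε → ∃ N : ℕ, ∀ n, N ≤ n → ∀ x : X,
        ∑' h : G, |m n (g • x) (g * h) - m n x h| < ε) :
    ∃ (F : Finset G) (N : X → G → ℝ), (∀ x h, 0 ≤ N x h) ∧ (∀ h, Continuous fun x => N x h) ∧
      (∀ x h, h ∉ F → N x h = 0) ∧ (∀ x, ∑ h ∈ F, N x h = 1) ∧
      ∀ g ∈ T, ∀ x, ∑ h ∈ F, |N (g • x) (g * h) - N x h| ≤ ε := by
  classical
  obtain ⟨m, hm0, hmc, hmF, hmi⟩ := ham
  choose Ng hNg using fun g : G => hmi g ε hε
  set n := T.sup Ng with hn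
  obtain ⟨F, hF0, hF1⟩ := hmF n
  refine ⟨F, m n, hm0 n, hmc n, hF0, hF1, fun g hg x => ?_⟩
  have h1 : Ng g ≤ n := Finset.le_sup hg
  refine le_trans ?_ (hNg g n h1 x).le
  have hs : Summable fun h => |m n (g • x) (g * h) - m n x h| := by
    refine summable_of_hasFiniteSupport
      (((F ∪ F.image fun a => g⁻¹ * a).finite_toSet).subset fun h hh => ?_)
    simp only [Function.mem_support] at hh
    by_contra hcon
    apply hh
    have e5 : h ∉ F := fun hc => hcon (Finset.mem_coe.2 (Finset.mem_union_left _ hc))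
    have e6 : g * h ∉ F := fun hc => hcon (Finset.mem_coe.2 (Finset.mem_union_right _
      (Finset.mem_image.2 ⟨g * h, hc, inv_mul_cancel_left _ _⟩)))
    rw [hF0 _ _ e5, hF0 _ _ e6, sub_zero, abs_zero]
  exact hs.sum_le_tsum F fun _ _ => abs_nonneg _

theorem free_normal (Γ : Subgroup G) [Γ.Normal] [IsFreeGroup Γ]
    (hna : ∃ a ∈ Γ, ∃ b ∈ Γ, a * b ≠ b * a)
    (hfree : ∀ (g : G) (x : X), g • x = x → g = 1) [MulAction.IsMinimal G X]
    (ham : ∃ m : ℕ → X → G → ℝ,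
      (∀ n x h, 0 ≤ m n x h) ∧
      (∀ n h, Continuous (fun x => m n x h)) ∧
      (∀ n, ∃ F : Finset G, (∀ x h, h ∉ F → m n x h = 0) ∧ ∀ x, ∑ h ∈ F, m n x h = 1) ∧
      ∀ g : G, ∀ ε : ℝ, 0 < ε → ∃ N : ℕ, ∀ n, N ≤ n → ∀ x : X,
        ∑' h : G, |m n (g • x) (g * h) - m n x h| < ε)
    (V : Set X) (hV : IsOpen V) (hVne : V.Nonempty) :
    ∃ (p : ℕ) (W : Fin p → Set X) (s : Fin p → G), (∀ i, IsOpen (W i)) ∧
      (Set.univ ⊆ ⋃ i, W i) ∧ (∀ i, (fun x => s i • x) '' W i ⊆ V) ∧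
      Pairwise (fun i j => Disjoint ((fun x => s i • x) '' W i) ((fun x => s j • x) '' W j)) := by
  classical
  obtain ⟨I, hI⟩ := (isCompact_univ (X := X)).exists_finite_cover_smul G hV hVne
  set D : Finset G := I.image fun g => g⁻¹ with hDdef
  have hD : ∀ x : X, ∃ d ∈ D, d • x ∈ V := by
    intro x
    obtain ⟨g, hg, hgx⟩ := Set.mem_iUnion₂.1 (hI (Set.mem_univ x))
    exact ⟨g⁻¹, Finset.mem_image_of_mem _ hg, (Set.mem_smul_set_iff_inv_smul_mem).1 hgx⟩
  have hDne : 0 < D.card := by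
    obtain ⟨x, -⟩ := hVne
    obtain ⟨d, hd, -⟩ := hD x
    exact Finset.card_pos.2 ⟨d, hd⟩
  -- the colouring separates the centralising elements
  set H : Finset G := (((D ×ˢ D).image fun p => p.1⁻¹ * p.2).filter
    fun g => ∀ γ ∈ Γ, g * γ = γ * g).erase 1 with hH
  obtain ⟨L, O, hO, hOc, hOw⟩ := local_wander hfree H (by simp [hH])
  -- conjugation on the free group
  let φ := IsFreeGroup.mulEquiv Γ
  let σ : D → FreeGroup (IsFreeGroup.Generators Γ) ≃* FreeGroup (IsFreeGroup.Generators Γ) :=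
    fun d => (φ.trans (MulAut.conjNormal (d : G))).trans φ.symm
  have hσ : ∀ (d : D) (w), ((φ (σ d w) : Γ) : G) = d * (φ w : G) * (d : G)⁻¹ := by
    intro d w
    simp only [σ, MulEquiv.trans_apply, MulEquiv.apply_symm_apply]
    exact MulAut.conjNormal_apply _ _
  obtain ⟨a, ha, b, hb, hab⟩ := hna
  have hab' : φ.symm ⟨a, ha⟩ * φ.symm ⟨b, hb⟩ ≠ φ.symm ⟨b, hb⟩ * φ.symm ⟨a, ha⟩ := by
    rw [← map_mul, ← map_mul]
    intro h
    exact hab (congrArg Subtype.val (φ.symm.injective h))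
  obtain ⟨t0, P, N0, hPN, hP, hN⟩ := pingpong_family (ι := Fin (4 * D.card) × Fin L) σ hab'
  set ψ : G → FreeGroup (IsFreeGroup.Generators Γ) := fun g => φ.symm (sect Γ g) with hψ
  have hψm : ∀ (γ : Γ) (g : G), ψ ((γ : G) * g) = φ.symm γ * ψ g := by
    intro γ g
    simp only [hψ]
    rw [sect_mul, map_mul]
  set t : Fin (4 * D.card) → Fin L → G := fun κ χ => (φ (t0 (κ, χ)) : G) with ht
  set A : Fin (4 * D.card) → Fin L → Set G := fun κ χ =>
    {h | ∀ d : D, ψ ((d : G) * h) ∉ N0 d (κ, χ)} with hA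
  have hmove : ∀ (d : D) κ χ, ∀ h ∈ A κ χ, ψ ((d : G) * t κ χ * h) ∈ P d (κ, χ) := by
    intro d κ χ h hh
    have h1 : (d : G) * t κ χ * h = ((φ (σ d (t0 (κ, χ))) : Γ) : G) * ((d : G) * h) := by
      rw [hσ]
      simp only [ht]
      group
    rw [h1, hψm, MulEquiv.symm_apply_apply]
    exact hPN d (κ, χ) _ (hh d)
  have hcardA : ∀ h χ, 3 * Fintype.card (Fin (4 * D.card)) ≤
      4 * (univ.filter fun κ => h ∈ A κ χ).card := by
    intro h χ
    have h1 : (univ.filter fun κ => ¬ (h ∈ A κ χ)).card ≤ D.card := by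
      have h2 : (univ.filter fun κ => ¬ (h ∈ A κ χ)) ⊆ (univ : Finset D).biUnion fun d =>
          univ.filter fun κ => ψ ((d : G) * h) ∈ N0 d (κ, χ) := by
        intro κ hκ
        simp only [mem_filter, mem_univ, true_and, hA, Set.mem_ofPred_eq, not_forall, not_not]
          at hκ
        obtain ⟨d, hd⟩ := hκ
        simp only [mem_biUnion, mem_univ, mem_filter, true_and]
        exact ⟨d, hd⟩
      refine (Finset.card_le_card h2).trans ?_
      refine (Finset.card_biUnion_le_card_mul _ _ 1 fun d _ => ?_).trans ?_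
      · rw [Finset.card_le_one]
        intro κ hκ κ' hκ'
        simp only [mem_filter, mem_univ, true_and] at hκ hκ'
        by_contra hne
        refine Set.disjoint_left.1 (hN d (κ, χ) d (κ', χ) (Or.inl ?_)) hκ hκ'
        intro h3
        exact hne (congrArg Prod.fst h3)
      · rw [Finset.card_univ, Fintype.card_coe, mul_one]
    have h3 := Finset.card_filter_add_card_filter_not (s := (univ : Finset (Fin (4 * D.card))))
      (fun κ => h ∈ A κ χ)
    rw [Finset.card_univ, Fintype.card_fin] at h3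
    rw [Fintype.card_fin]
    omega
  -- the field of probability vectors
  obtain ⟨F, N, hN0, hNc, hNF, hN1, hNi⟩ := exists_field (X := X)
    ((D ×ˢ (univ : Finset (Fin (4 * D.card) × Fin L))).image fun p => p.1 * t p.2.1 p.2.2)
    (1/8) (by norm_num) ham
  have hKne : Nonempty (Fin (4 * D.card)) := ⟨⟨0, by omega⟩⟩
  refine tower V hV D hD t A (fun h χ => ?_) O hO hOc ?_ F N hN0 hNc hNF hN1 ?_
  · convert hcardA h χ
  · intro d hd d' hd' κ κ' χ χ' h hh h' hh' heq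
    have h1 := hmove ⟨d, hd⟩ κ χ h hh
    have h2 := hmove ⟨d', hd'⟩ κ' χ' h' hh'
    simp only at h1 h2
    rw [heq] at h1
    have h3 : (κ, χ) = (κ', χ') ∧ σ ⟨d, hd⟩ = σ ⟨d', hd'⟩ := by
      by_contra hcon
      have h4 : (κ, χ) ≠ (κ', χ') ∨ σ ⟨d, hd⟩ ≠ σ ⟨d', hd'⟩ := by
        by_contra h5
        push Not at h5
        exact hcon h5
      exact Set.disjoint_left.1 (hP _ _ _ _ h4) h1 h2
    obtain ⟨h4, h5⟩ := h3
    simp only [Prod.mk.injEq] at h4
    refine ⟨h4.1, h4.2, fun x hx x' hx' hxx => ?_⟩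
    by_contra hne
    have hcen : ∀ γ ∈ Γ, d'⁻¹ * d * γ = γ * (d'⁻¹ * d) := by
      intro γ hγ
      have h6 : ((φ (σ ⟨d, hd⟩ (φ.symm ⟨γ, hγ⟩)) : Γ) : G) =
          ((φ (σ ⟨d', hd'⟩ (φ.symm ⟨γ, hγ⟩)) : Γ) : G) := by rw [h5]
      rw [hσ, hσ, MulEquiv.apply_symm_apply] at h6
      have h7 : d * γ = d' * γ * d'⁻¹ * d := by
        rw [← h6, inv_mul_cancel_right]
      calc d'⁻¹ * d * γ = d'⁻¹ * (d * γ) := by group
        _ = γ * (d'⁻¹ * d) := by rw [h7]; group
    have htΓ : t κ χ ∈ Γ := (φ (t0 (κ, χ))).2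
    have hδH : d'⁻¹ * d ∈ H := by
      simp only [hH, mem_erase, mem_filter, mem_image, mem_product, Prod.exists]
      refine ⟨fun h6 => hne ?_, ⟨d', d, ⟨hd', hd⟩, rfl⟩, hcen⟩
      have : d' = d := inv_mul_eq_one.1 h6
      exact this.symm
    refine hOw χ _ hδH x hx ?_
    have h8 : (d'⁻¹ * d) • x = x' := by
      have h9 : (t κ χ) • (d'⁻¹ * d) • x = (t κ χ) • x' := by
        rw [smul_smul, ← hcen _ htΓ, mul_assoc, mul_smul, hxx, ← mul_smul, inv_mul_cancel_left]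
      exact smul_left_cancel _ h9
    rw [h8]
    exact hx'
  · intro d hd κ χ x
    refine hNi _ (Finset.mem_image.2 ⟨(d, (κ, χ)), ?_, rfl⟩) x
    exact Finset.mem_product.2 ⟨hd, Finset.mem_univ _⟩

end Pool.Agent.Helper277_DC
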