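import Mathlib

set_option autoImplicit false
set_option linter.unusedSectionVars false

/-!
# Ping-pong for powers of elements of a free group
-/

namespace Pool.Agent.Helper277_DC

open List

section

variable {α : Type}

/-- The decomposition `x = u c u⁻¹` with `u c ^ n u⁻¹` reduced for all `n ≥ 1`. -/
structure Dec (x : FreeGroup α) (u c : List (α × Bool)) : Prop where
  eq : x = FreeGroup.mk u * FreeGroup.mk c * (FreeGroup.mk u)⁻¹
  red : ∀ n : ℕ, n ≠ 0 → FreeGroup.IsReduced (u ++ (replicate n c).flatten ++ FreeGroup.invRev u)
  ne : c ≠ []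

theorem Dec.exists {x : FreeGroup α} (hx : x ≠ 1) : ∃ u c, Dec x u c := by
  classical
  set w := x.toWord with hw
  have hred : FreeGroup.IsReduced w := FreeGroup.isReduced_toWord
  have hdec := FreeGroup.reduceCyclically.conj_conjugator_reduceCyclically w
  refine ⟨FreeGroup.reduceCyclically.conjugator w, FreeGroup.reduceCyclically w, ?_, ?_, ?_⟩
  · rw [FreeGroup.inv_mk, FreeGroup.mul_mk, FreeGroup.mul_mk, hdec, hw, FreeGroup.mk_toWord]
  · intro n hn
    refine FreeGroup.IsReduced.append_flatten_replicate_append
      (FreeGroup.reduceCyclically.isCyclicallyReduced hred) ?_ hn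
    rw [hdec]
    exact hred
  · intro hc
    apply hx
    rw [hc, append_nil] at hdec
    rw [← FreeGroup.mk_toWord (x := x), ← hw, ← hdec, ← FreeGroup.mul_mk, ← FreeGroup.inv_mk,
      mul_inv_cancel]

theorem flatten_replicate_invRev (n : ℕ) (c : List (α × Bool)) :
    (replicate n (FreeGroup.invRev c)).flatten = FreeGroup.invRev (replicate n c).flatten := by
  induction n with
  | zero => simp
  | succ n ih =>
    rw [replicate_succ, flatten_cons, ih, replicate_succ', flatten_concat,
      FreeGroup.invRev_append]

theorem isReduced_invRev {L : List (α × Bool)} (h : FreeGroup.IsReduced L) :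
    FreeGroup.IsReduced (FreeGroup.invRev L) := by
  classical
  rw [FreeGroup.isReduced_iff_reduce_eq, FreeGroup.reduce_invRev, h.reduce_eq]

theorem Dec.inv {x : FreeGroup α} {u c : List (α × Bool)} (h : Dec x u c) :
    Dec x⁻¹ u (FreeGroup.invRev c) := by
  refine ⟨?_, fun n hn => ?_, fun hc => h.ne ?_⟩
  · rw [h.eq, ← FreeGroup.inv_mk]
    group
  · rw [flatten_replicate_invRev]
    have h1 := isReduced_invRev (h.red n hn)
    rw [FreeGroup.invRev_append, FreeGroup.invRev_append, FreeGroup.invRev_invRev,
      ← append_assoc] at h1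
    exact h1
  · rw [← FreeGroup.invRev_invRev (L₁ := c), hc]
    simp

theorem mk_replicate (n : ℕ) (c : List (α × Bool)) :
    FreeGroup.mk (replicate n c).flatten = FreeGroup.mk c ^ n := by
  induction n with
  | zero => simp [FreeGroup.one_eq_mk]
  | succ n ih => rw [replicate_succ', flatten_concat, ← FreeGroup.mul_mk, ih, pow_succ]

theorem Dec.pow {x : FreeGroup α} {u c : List (α × Bool)} (h : Dec x u c) (n : ℕ) :
    x ^ n = FreeGroup.mk u * FreeGroup.mk (replicate n c).flatten * (FreeGroup.mk u)⁻¹ := by
  rw [mk_replicate, h.eq, conj_pow]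

open Classical in
/-- powers of a nontrivial element are long -/
theorem le_norm_pow {x : FreeGroup α} (hx : x ≠ 1) (n : ℕ) : n ≤ FreeGroup.norm (x ^ n) := by
  rcases Nat.eq_zero_or_pos n with rfl | hn
  · simp
  obtain ⟨u, c, h⟩ := Dec.exists hx
  have h1 := h.red n (by omega)
  have hc : 1 ≤ c.length := by
    rw [Nat.one_le_iff_ne_zero, Ne, List.length_eq_zero_iff]
    exact h.ne
  rw [h.pow, FreeGroup.inv_mk, FreeGroup.mul_mk, FreeGroup.mul_mk, FreeGroup.norm,
    FreeGroup.toWord_mk, h1.reduce_eq, length_append, length_append, length_flatten, map_replicate,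
    sum_replicate, smul_eq_mul]
  nlinarith

open Classical in
theorem norm_pow_le (x : FreeGroup α) (n : ℕ) : FreeGroup.norm (x ^ n) ≤ n * FreeGroup.norm x := by
  induction n with
  | zero => simp
  | succ n ih =>
    rw [pow_succ]
    refine (FreeGroup.norm_mul_le _ _).trans ?_
    nlinarith

theorem red_left {A B : List (α × Bool)} (h : FreeGroup.IsReduced (A ++ B)) :
    FreeGroup.IsReduced A := by
  unfold FreeGroup.IsReduced at h ⊢
  exact (List.isChain_append.1 h).1

theorem red_right {A B : List (α × Bool)} (h : FreeGroup.IsReduced (A ++ B)) :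
    FreeGroup.IsReduced B := by
  unfold FreeGroup.IsReduced at h ⊢
  exact (List.isChain_append.1 h).2.1

/-- maximal cancellation -/
theorem cancel (A : List (α × Bool)) : ∀ B : List (α × Bool), FreeGroup.IsReduced A →
    FreeGroup.IsReduced B → ∃ A' S B', A = A' ++ S ∧ B = FreeGroup.invRev S ++ B' ∧
      FreeGroup.IsReduced (A' ++ B') := by
  induction A using List.reverseRecOn with
  | nil => exact fun B _ hB => ⟨[], [], B, rfl, rfl, hB⟩
  | append_singleton A a ih =>
    intro B hA hB
    cases B with
    | nil => exact ⟨A ++ [a], [], [], by simp, by simp, by simpa using hA⟩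
    | cons b B =>
      by_cases hab : b = (a.1, !a.2)
      · obtain ⟨A', S, B', h1, h2, h3⟩ := ih B (red_left hA)
          (red_right (A := [b]) (by simpa using hB))
        refine ⟨A', S ++ [a], B', by rw [h1]; simp, ?_, h3⟩
        rw [FreeGroup.invRev_append, h2, hab]
        simp [FreeGroup.invRev]
      · refine ⟨A ++ [a], [], b :: B, by simp, by simp, ?_⟩
        unfold FreeGroup.IsReduced at hA hB ⊢
        rw [List.isChain_append]
        refine ⟨hA, hB, ?_⟩
        intro x hx y hy hxy
        simp only [getLast?_append, getLast?_singleton, Option.mem_def,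
          Option.some.injEq, head?_cons] at hx hy
        subst hy
        have hx' : x = a := by
          simpa using hx.symm
        subst hx'
        by_contra hne
        apply hab
        refine Prod.ext hxy.symm ?_
        simp only
        cases h1 : x.2 <;> cases h2 : b.2 <;> simp_all

/-- if the last part of `A₁ ++ A₂` is not cancelled completely then `A₁` survives -/
theorem prefix_survives (A₁ A₂ : List (α × Bool)) (δ : FreeGroup α) [DecidableEq α]
    (hA : FreeGroup.IsReduced (A₁ ++ A₂)) (hB : ¬ (FreeGroup.invRev A₂ <+: δ.toWord)) :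
    A₁ <+: (FreeGroup.mk (A₁ ++ A₂) * δ).toWord := by
  obtain ⟨A', S, B', h1, h2, h3⟩ := cancel (A₁ ++ A₂) δ.toWord hA FreeGroup.isReduced_toWord
  have h4 : (FreeGroup.mk (A₁ ++ A₂) * δ).toWord = A' ++ B' := by
    have h5 : FreeGroup.mk (A₁ ++ A₂) * δ = FreeGroup.mk (A' ++ B') := by
      rw [h1, ← FreeGroup.mk_toWord (x := δ), h2, ← FreeGroup.mul_mk, ← FreeGroup.mul_mk,
        ← FreeGroup.mul_mk, ← FreeGroup.inv_mk]
      group
    rw [h5, FreeGroup.toWord_mk, h3.reduce_eq]
  rw [h4]
  have h6 : A₁ <+: A' := by
    have h7 : A₁.length ≤ A'.length := by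
      by_contra hcon
      push Not at hcon
      apply hB
      -- then `A₂` is a suffix of `S`
      have h8 : A' <+: A₁ := List.prefix_of_prefix_length_le ⟨S, h1.symm⟩ ⟨A₂, rfl⟩ hcon.le
      obtain ⟨Z, hZ⟩ := h8
      have h9 : S = Z ++ A₂ := by
        rw [← hZ, append_assoc] at h1
        exact (append_cancel_left h1).symm
      rw [h2, h9, FreeGroup.invRev_append, append_assoc]
      exact ⟨_, rfl⟩
    exact List.prefix_of_prefix_length_le ⟨A₂, rfl⟩ ⟨S, h1.symm⟩ h7
  exact h6.trans ⟨B', rfl⟩

/-- elements whose reduced word starts with `u c ^ K` -/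
def Pre (u c : List (α × Bool)) (K : ℕ) : Set (FreeGroup α) := by
  classical
  exact {γ | (u ++ (replicate K c).flatten) <+: γ.toWord}

theorem Dec.ping {x : FreeGroup α} {u c : List (α × Bool)} (h : Dec x u c) {K : ℕ} (hK : K ≠ 0)
    {γ : FreeGroup α} (hγ : γ ∉ Pre u (FreeGroup.invRev c) K) : x ^ (2 * K) * γ ∈ Pre u c K := by
  classical
  set δ := (FreeGroup.mk u)⁻¹ * γ with hδ
  have h1 : x ^ (2 * K) * γ = FreeGroup.mk ((u ++ (replicate K c).flatten) ++
      (replicate K c).flatten) * δ := by
    rw [h.pow, mul_assoc, ← hδ, two_mul, replicate_add, flatten_append, append_assoc u,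
      ← FreeGroup.mul_mk (L₁ := u)]
  have hred := h.red (2 * K) (by omega)
  have hA : FreeGroup.IsReduced ((u ++ (replicate K c).flatten) ++ (replicate K c).flatten) := by
    have h0 := red_left hred
    rw [two_mul, replicate_add, flatten_append, ← append_assoc] at h0
    exact h0
  have h2 : ¬ (FreeGroup.invRev (replicate K c).flatten <+: δ.toWord) := by
    rintro ⟨w', hw'⟩
    apply hγ
    have h3 : FreeGroup.IsReduced (u ++ FreeGroup.invRev (replicate K c).flatten) := by
      have h4 := h.inv.red K hK
      rw [flatten_replicate_invRev] at h4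
      exact red_left h4
    have h5 : FreeGroup.IsReduced (u ++ δ.toWord) := by
      rw [← hw', ← append_assoc]
      refine FreeGroup.IsReduced.append_overlap h3 ?_ ?_
      · rw [hw']
        exact FreeGroup.isReduced_toWord
      · intro h6
        have h7 := congrArg List.length h6
        rw [FreeGroup.invRev_length, length_flatten, map_replicate, sum_replicate, smul_eq_mul,
          length_nil] at h7
        rcases Nat.mul_eq_zero.1 h7 with h8 | h8
        · exact hK h8
        · exact h.ne (List.length_eq_zero_iff.1 h8)
    have h6 : γ.toWord = u ++ δ.toWord := by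
      have h7 : γ = FreeGroup.mk (u ++ δ.toWord) := by
        rw [← FreeGroup.mul_mk, FreeGroup.mk_toWord, hδ, mul_inv_cancel_left]
      have h8 := congrArg FreeGroup.toWord h7
      rw [FreeGroup.toWord_mk, h5.reduce_eq] at h8
      exact h8
    show (u ++ (replicate K (FreeGroup.invRev c)).flatten) <+: γ.toWord
    rw [h6, flatten_replicate_invRev, ← hw', ← append_assoc]
    exact ⟨w', rfl⟩
  have h3 := prefix_survives _ _ δ hA h2
  rw [← h1] at h3
  exact h3

/-- shift by powers along the axis -/
theorem Dec.shift {x : FreeGroup α} {u c : List (α × Bool)} (h : Dec x u c) (q K n : ℕ)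
    (hn : u.length ≤ n) (hK : n + q * c.length ≤ u.length + K * c.length) :
    x ^ q * FreeGroup.mk (take n (u ++ (replicate K c).flatten)) =
      FreeGroup.mk (take (n + q * c.length) (u ++ (replicate K c).flatten)) := by
  obtain ⟨j, rfl⟩ : ∃ j, n = u.length + j := ⟨n - u.length, by omega⟩
  have hqK : q ≤ K := by
    by_contra hcon
    push Not at hcon
    have hc : 1 ≤ c.length := by
      rw [Nat.one_le_iff_ne_zero, Ne, List.length_eq_zero_iff]
      exact h.ne
    have : K * c.length < q * c.length := Nat.mul_lt_mul_of_pos_right hcon (by omega)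
    omega
  obtain ⟨K', rfl⟩ : ∃ K', K = q + K' := ⟨K - q, by omega⟩
  have e1 : take (u.length + j) (u ++ (replicate (q + K') c).flatten) =
      u ++ take j (replicate (q + K') c).flatten := take_length_add_append _
  have e2 : take (u.length + j + q * c.length) (u ++ (replicate (q + K') c).flatten) =
      u ++ take (j + q * c.length) (replicate (q + K') c).flatten := by
    rw [add_assoc]; exact take_length_add_append _
  have e3 : take (j + q * c.length) (replicate (q + K') c).flatten =
      (replicate q c).flatten ++ take j (replicate K' c).flatten := by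
    have hl : (replicate q c).flatten.length = q * c.length := by
      rw [length_flatten, map_replicate, sum_replicate, smul_eq_mul]
    rw [replicate_add, flatten_append, add_comm, ← hl]
    exact take_length_add_append _
  have e4 : take j (replicate (q + K') c).flatten = take j (replicate K' c).flatten := by
    have hl : (replicate K' c).flatten.length = K' * c.length := by
      rw [length_flatten, map_replicate, sum_replicate, smul_eq_mul]
    rw [add_comm q, replicate_add, flatten_append, take_append_of_le_length]
    rw [hl]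
    have : (q + K') * c.length = q * c.length + K' * c.length := by ring
    omega
  rw [e1, e2, e3, e4, h.pow, ← FreeGroup.mul_mk, ← FreeGroup.mul_mk (L₁ := u),
    ← FreeGroup.mul_mk]
  group

/-- If `x` and `y` have no common positive powers, long prefixes of their axes are different. -/
theorem Dec.disjoint {x y : FreeGroup α} {u c v e : List (α × Bool)} (hx : Dec x u c)
    (hy : Dec y v e) (hxy : ∀ a b : ℕ, a ≠ 0 → b ≠ 0 → x ^ a ≠ y ^ b) :
    ∃ K₀ : ℕ, ∀ K ≥ K₀, Disjoint (Pre u c K) (Pre v e K) := by
  classical
  set p := c.length with hp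
  set q := e.length with hq
  have hp1 : 1 ≤ p := by
    rw [hp, Nat.one_le_iff_ne_zero, Ne, List.length_eq_zero_iff]; exact hx.ne
  have hq1 : 1 ≤ q := by
    rw [hq, Nat.one_le_iff_ne_zero, Ne, List.length_eq_zero_iff]; exact hy.ne
  set n₀ := u.length + v.length with hn₀
  refine ⟨n₀ + p * q, fun K hK => ?_⟩
  rw [Set.disjoint_left]
  intro γ h1 h2
  have h1' : (u ++ (replicate K c).flatten) <+: γ.toWord := h1
  have h2' : (v ++ (replicate K e).flatten) <+: γ.toWord := h2
  have hKp : K ≤ K * p := Nat.le_mul_of_pos_right _ hp1
  have hKq : K ≤ K * q := Nat.le_mul_of_pos_right _ hq1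
  have hl1 : (u ++ (replicate K c).flatten).length = u.length + K * p := by
    rw [length_append, length_flatten, map_replicate, sum_replicate, smul_eq_mul]
  have hl2 : (v ++ (replicate K e).flatten).length = v.length + K * q := by
    rw [length_append, length_flatten, map_replicate, sum_replicate, smul_eq_mul]
  have key : ∀ n, n ≤ n₀ + p * q → take n (u ++ (replicate K c).flatten) =
      take n (v ++ (replicate K e).flatten) := by
    intro n hn
    obtain ⟨w1, hw1⟩ := h1'
    obtain ⟨w2, hw2⟩ := h2'
    have b1 : n ≤ (u ++ (replicate K c).flatten).length := by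
      rw [hl1]; omega
    have b2 : n ≤ (v ++ (replicate K e).flatten).length := by
      rw [hl2]; omega
    have e1 : take n (u ++ (replicate K c).flatten) = take n γ.toWord := by
      rw [← hw1, take_append_of_le_length b1]
    have e2 : take n (v ++ (replicate K e).flatten) = take n γ.toWord := by
      rw [← hw2, take_append_of_le_length b2]
    rw [e1, e2]
  have s1 := hx.shift q K n₀ (by omega) (by
    rw [mul_comm q, ← hp]; omega)
  have s2 := hy.shift p K n₀ (by omega) (by
    rw [← hq]; omega)
  rw [← hp, mul_comm q, key _ le_rfl, key n₀ (by omega)] at s1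
  rw [← hq, ← s1] at s2
  exact hxy q p (by omega) (by omega) (mul_right_cancel s2).symm

end

end Pool.Agent.Helper277_DC
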