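import Mathlib

set_option autoImplicit false
set_option linter.unusedSectionVars false

/-!
# A spectral gap for non-amenable groups, in elementary form

For a group in which the Folner condition fails, uniform words of length `k` in a suitable finite
set spread finite sets out: `(∑_{h ∈ E} #{ω | ev ω * h ∈ B})² ≤ θ^k |E| |B| |Ω|²`.
-/

namespace Pool.Agent.Helper277_DC

open Finset

variable {G : Type} [Group G]

/-- The Folner condition fails: for some finite `S` and `c > 0`, every finite nonempty set `E` has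
`|s E \ E| ≥ c |E|` for some `s ∈ S`. -/
def NonFolner (G : Type) [Group G] : Prop :=
  ∃ (S : Finset G) (c : ℝ), 0 < c ∧
    ∀ E : Finset G, E.Nonempty → ∃ s ∈ S, c * (E.card : ℝ) ≤ ({x ∈ (E : Set G) | s * x ∉ E}.ncard : ℝ)

open Classical in
theorem coarea (S : Finset G) (c : ℝ)
    (hiso : ∀ E : Finset G, c * (E.card : ℝ) ≤
      ∑ s ∈ S, ((E.filter fun x => s * x ∉ E).card : ℝ)) :
    ∀ (n : ℕ) (A : Finset G) (F : G → ℝ), A.card ≤ n → (∀ x, 0 ≤ F x) → (∀ x, x ∉ A → F x = 0) →
      c * ∑ x ∈ A, F x ≤ ∑ s ∈ S, ∑ x ∈ A, max (F x - F (s * x)) 0 := by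
  intro n
  induction n with
  | zero =>
    intro A F hA _ _
    have : A = ∅ := Finset.card_eq_zero.1 (Nat.le_zero.1 hA)
    subst this
    simp
  | succ n ih =>
    intro A F hA h0 hs
    rcases A.eq_empty_or_nonempty with rfl | hne
    · simp
    obtain ⟨a, haA, hmin⟩ := Finset.exists_min_image A F hne
    set c0 := F a with hc0
    set F' : G → ℝ := fun x => if x ∈ A then F x - c0 else 0 with hF'
    have h1 := ih (A.erase a) F' (by
        rw [Finset.card_erase_of_mem haA]; omega) (by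
        intro x
        simp only [hF']
        split_ifs with hx
        · exact sub_nonneg.2 (hmin x hx)
        · exact le_rfl) (by
        intro x hx
        simp only [hF']
        split_ifs with hxA
        · have : x = a := by
            by_contra hxa
            exact hx (Finset.mem_erase.2 ⟨hxa, hxA⟩)
          rw [this]; simp [hc0]
        · rfl)
    have hFa : F' a = 0 := by simp [hF', haA, hc0]
    have hsum1 : ∑ x ∈ A.erase a, F' x = ∑ x ∈ A, F' x := by
      rw [← Finset.add_sum_erase A F' haA, hFa, zero_add]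
    have hsum2 : ∑ x ∈ A, F' x = ∑ x ∈ A, F x - c0 * A.card := by
      have : ∀ x ∈ A, F' x = F x - c0 := fun x hx => by simp [hF', hx]
      rw [Finset.sum_congr rfl this, Finset.sum_sub_distrib]
      simp [mul_comm]
    have hstep : ∀ s ∈ S, ∑ x ∈ A.erase a, max (F' x - F' (s * x)) 0 +
        c0 * ((A.filter fun x => s * x ∉ A).card : ℝ) ≤ ∑ x ∈ A, max (F x - F (s * x)) 0 := by
      intro s _
      have e1 : ∑ x ∈ A.erase a, max (F' x - F' (s * x)) 0 ≤ ∑ x ∈ A, max (F' x - F' (s * x)) 0 :=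
        Finset.sum_le_sum_of_subset_of_nonneg (Finset.erase_subset _ _)
          (fun _ _ _ => le_max_right _ _)
      have e2 : c0 * ((A.filter fun x => s * x ∉ A).card : ℝ) =
          ∑ x ∈ A, (if s * x ∉ A then c0 else 0) := by
        rw [← Finset.sum_filter, Finset.sum_const, nsmul_eq_mul, mul_comm]
      rw [e2]
      refine (add_le_add e1 le_rfl).trans ?_
      rw [← Finset.sum_add_distrib]
      refine Finset.sum_le_sum fun x hx => ?_
      have hc0n : 0 ≤ c0 := h0 a
      have hxc : c0 ≤ F x := hmin x hx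
      by_cases hsx : s * x ∈ A
      · have e3 : F' x - F' (s * x) = F x - F (s * x) := by simp [hF', hx, hsx]
        rw [e3]; simp [hsx]
      · have e3 : F' x - F' (s * x) = F x - c0 := by simp [hF', hx, hsx]
        have e4 : F (s * x) = 0 := hs _ hsx
        rw [e3, e4, max_eq_left (by linarith), sub_zero, max_eq_left (by linarith)]
        simp [hsx]
    have h2 := Finset.sum_le_sum hstep
    rw [Finset.sum_add_distrib, ← Finset.mul_sum] at h2
    have h3 := hiso A
    have hc0n : 0 ≤ c0 := h0 a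
    have h4 : c0 * (c * (A.card : ℝ)) ≤
        c0 * ∑ s ∈ S, ((A.filter fun x => s * x ∉ A).card : ℝ) :=
      mul_le_mul_of_nonneg_left h3 hc0n
    rw [hsum1, hsum2] at h1
    nlinarith [h1, h2, h4]

theorem summable_of_supp (f : G → ℝ) (hf : (Function.support f).Finite) : Summable f :=
  summable_of_hasFiniteSupport hf

theorem supp_sq {f : G → ℝ} (hf : (Function.support f).Finite) :
    (Function.support fun x => f x ^ 2).Finite :=
  hf.subset fun x hx => by
    simp only [Function.mem_support] at hx ⊢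
    exact fun h => hx (by simp [h])

theorem supp_mul {f : G → ℝ} (hf : (Function.support f).Finite) (s : G) :
    (Function.support fun x => f (s * x)).Finite := by
  have : (Function.support fun x => f (s * x)) = (fun x => s * x) ⁻¹' Function.support f := rfl
  rw [this]
  exact hf.preimage (mul_right_injective s).injOn

theorem tsum_mul_left' (f : G → ℝ) (s : G) : ∑' x, f (s * x) = ∑' x, f x :=
  (Equiv.mulLeft s).tsum_eq f

theorem cheeger (S : Finset G) (c : ℝ) (hc : 0 < c) (hS : S.Nonempty)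
    (hiso : ∀ E : Finset G, c * (E.card : ℝ) ≤
      ∑ s ∈ S, ({x ∈ (E : Set G) | s * x ∉ E}.ncard : ℝ))
    (f : G → ℝ) (hf : (Function.support f).Finite) :
    c ^ 2 / (4 * S.card) * ∑' x, f x ^ 2 ≤ ∑ s ∈ S, ∑' x, (f (s * x) - f x) ^ 2 := by
  classical
  set A := hf.toFinset with hA
  have hfA : ∀ x, x ∉ A → f x = 0 := fun x hx => by
    by_contra h
    exact hx (by rw [hA]; simpa using h)
  have hiso' : ∀ E : Finset G, c * (E.card : ℝ) ≤
      ∑ s ∈ S, ((E.filter fun x => s * x ∉ E).card : ℝ) := by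
    intro E
    refine (hiso E).trans (le_of_eq (Finset.sum_congr rfl fun s _ => ?_))
    rw [← Set.ncard_coe_finset]
    congr 2
    ext x
    simp
  have h1 := coarea S c hiso' A.card A (fun x => f x ^ 2) le_rfl (fun x => sq_nonneg _)
    (fun x hx => by simp [hfA x hx])
  set N := ∑' x, f x ^ 2 with hN
  have hN0 : 0 ≤ N := tsum_nonneg fun x => sq_nonneg _
  have hNA : ∑ x ∈ A, f x ^ 2 = N := by
    rw [hN, tsum_eq_sum (s := A)]
    intro x hx
    simp [hfA x hx]
  have hSc : (0:ℝ) < S.card := by exact_mod_cast hS.card_pos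
  set δ := c / (4 * S.card) with hδ
  have hδ0 : 0 < δ := by positivity
  have hsm : Summable fun x => f x ^ 2 := summable_of_supp _ (supp_sq hf)
  have h2 : ∀ s ∈ S, ∑ x ∈ A, max (f x ^ 2 - f (s * x) ^ 2) 0 ≤
      1 / (2 * δ) * ∑' x, (f (s * x) - f x) ^ 2 + 2 * δ * N := by
    intro s _
    have hD : Summable fun x => (f (s * x) - f x) ^ 2 := by
      refine summable_of_supp _ (supp_sq ?_)
      refine ((supp_mul hf s).union hf).subset fun x hx => ?_
      simp only [Function.mem_support, Set.mem_union] at hx ⊢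
      by_contra hcon
      push Not at hcon
      exact hx (by rw [hcon.1, hcon.2, sub_zero])
    have h3 : ∀ x ∈ A, max (f x ^ 2 - f (s * x) ^ 2) 0 ≤
        1 / (2 * δ) * (f (s * x) - f x) ^ 2 + δ * (f x ^ 2 + f (s * x) ^ 2) := by
      intro x _
      refine max_le ?_ (by positivity)
      have e : 1 / (2 * δ) * (f (s * x) - f x) ^ 2 + δ / 2 * (f (s * x) + f x) ^ 2 -
          (f x ^ 2 - f (s * x) ^ 2) = 1 / (2 * δ) * ((f (s * x) - f x) + δ * (f (s * x) + f x)) ^ 2 := by
        field_simp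
        ring
      have e2 : 0 ≤ 1 / (2 * δ) * ((f (s * x) - f x) + δ * (f (s * x) + f x)) ^ 2 := by positivity
      have e3 : δ / 2 * (f (s * x) + f x) ^ 2 ≤ δ * (f x ^ 2 + f (s * x) ^ 2) := by
        nlinarith [sq_nonneg (f (s * x) - f x), hδ0]
      linarith
    refine (Finset.sum_le_sum h3).trans ?_
    rw [Finset.sum_add_distrib, ← Finset.mul_sum, ← Finset.mul_sum, Finset.sum_add_distrib, hNA]
    have h4 : ∑ x ∈ A, (f (s * x) - f x) ^ 2 ≤ ∑' x, (f (s * x) - f x) ^ 2 :=
      hD.sum_le_tsum A fun _ _ => sq_nonneg _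
    have h5 : ∑ x ∈ A, f (s * x) ^ 2 ≤ N := by
      rw [hN, ← tsum_mul_left' (fun x => f x ^ 2) s]
      exact (summable_of_supp _ (supp_sq (supp_mul hf s))).sum_le_tsum A fun _ _ => sq_nonneg _
    have h6 : 1 / (2 * δ) * ∑ x ∈ A, (f (s * x) - f x) ^ 2 ≤
        1 / (2 * δ) * ∑' x, (f (s * x) - f x) ^ 2 := mul_le_mul_of_nonneg_left h4 (by positivity)
    nlinarith [h6, h5, hδ0]
  have h7 := h1.trans (Finset.sum_le_sum h2)
  rw [hNA, Finset.sum_add_distrib, ← Finset.mul_sum, Finset.sum_const, nsmul_eq_mul] at h7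
  set T := ∑ s ∈ S, ∑' x, (f (s * x) - f x) ^ 2 with hT
  have e1 : 1 / (2 * δ) = 2 * S.card / c := by rw [hδ]; field_simp; norm_num
  have e2 : (S.card : ℝ) * (2 * δ * N) = c / 2 * N := by rw [hδ]; field_simp; norm_num
  rw [e1, e2] at h7
  have h8 : c / 2 * N ≤ 2 * S.card / c * T := by linarith
  have h9 : c / 2 * N * (c / (2 * S.card)) ≤ 2 * S.card / c * T * (c / (2 * S.card)) :=
    mul_le_mul_of_nonneg_right h8 (by positivity)
  have e3 : 2 * (S.card:ℝ) / c * T * (c / (2 * S.card)) = T := by field_simp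
  have e4 : c / 2 * N * (c / (2 * S.card)) = c ^ 2 / (4 * S.card) * N := by
    field_simp
    ring
  rw [e3, e4] at h9
  exact h9

/-- pointwise variance inequality -/
theorem sq_sum_le_var (S : Finset G) (h1 : (1:G) ∈ S) (a : G → ℝ) :
    (∑ s ∈ S, a s) ^ 2 ≤ S.card * ∑ s ∈ S, a s ^ 2 - ∑ s ∈ S, (a s - a 1) ^ 2 := by
  classical
  have key : ∀ (b : G → ℝ), b 1 = 0 → (∑ s ∈ S, b s) ^ 2 ≤ (S.card - 1) * ∑ s ∈ S, b s ^ 2 := by
    intro b hb
    have e1 : ∑ s ∈ S, b s = ∑ s ∈ S.erase 1, b s := by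
      rw [← Finset.add_sum_erase S b h1, hb, zero_add]
    have e2 : ∑ s ∈ S, b s ^ 2 = ∑ s ∈ S.erase 1, b s ^ 2 := by
      rw [← Finset.add_sum_erase S (fun s => b s ^ 2) h1, hb]; simp
    rw [e1, e2]
    have e3 := sq_sum_le_card_mul_sum_sq (s := S.erase 1) (f := b)
    rw [Finset.card_erase_of_mem h1, Nat.cast_sub (Finset.card_pos.2 ⟨1, h1⟩), Nat.cast_one] at e3
    exact e3
  have h2 := key (fun s => a s - a 1) (by simp)
  simp only [Finset.sum_sub_distrib, Finset.sum_const, nsmul_eq_mul] at h2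
  have h3 : ∑ s ∈ S, (a s - a 1) ^ 2 = ∑ s ∈ S, a s ^ 2 - 2 * a 1 * ∑ s ∈ S, a s +
      S.card * a 1 ^ 2 := by
    have : ∀ s ∈ S, (a s - a 1) ^ 2 = a s ^ 2 - 2 * a 1 * a s + a 1 ^ 2 := fun s _ => by ring
    rw [Finset.sum_congr rfl this, Finset.sum_add_distrib, Finset.sum_sub_distrib,
      ← Finset.mul_sum, Finset.sum_const, nsmul_eq_mul]
  rw [h3] at h2 ⊢
  nlinarith [h2]

/-- spectral gap -/
theorem gap (hG : NonFolner G) : ∃ (S : Finset G) (θ : ℝ), (1:G) ∈ S ∧ 0 ≤ θ ∧ θ < 1 ∧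
    ∀ f : G → ℝ, (Function.support f).Finite →
      ∑' x, (∑ s ∈ S, f (s * x)) ^ 2 ≤ θ * (S.card : ℝ) ^ 2 * ∑' x, f x ^ 2 := by
  classical
  obtain ⟨S0, c0, hc0, hiso⟩ := hG
  set S := insert (1:G) S0 with hS
  have h1S : (1:G) ∈ S := Finset.mem_insert_self _ _
  have hSne : S.Nonempty := ⟨1, h1S⟩
  have hSc : (1:ℝ) ≤ S.card := by exact_mod_cast hSne.card_pos
  set c := min c0 1 with hc
  have hcpos : 0 < c := lt_min hc0 one_pos
  have hiso' : ∀ E : Finset G, c * (E.card : ℝ) ≤
      ∑ s ∈ S, ({x ∈ (E : Set G) | s * x ∉ E}.ncard : ℝ) := by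
    intro E
    rcases E.eq_empty_or_nonempty with rfl | hE
    · simp
    obtain ⟨s, hs, hsE⟩ := hiso E hE
    have h1 : c * (E.card : ℝ) ≤ c0 * E.card :=
      mul_le_mul_of_nonneg_right (min_le_left _ _) (Nat.cast_nonneg _)
    refine h1.trans (hsE.trans ?_)
    exact Finset.single_le_sum (f := fun s => ({x ∈ (E : Set G) | s * x ∉ E}.ncard : ℝ))
      (fun _ _ => Nat.cast_nonneg _) (Finset.mem_insert_of_mem hs)
  refine ⟨S, 1 - c ^ 2 / (4 * S.card) / S.card ^ 2, h1S, ?_, ?_, ?_⟩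
  · have : c ^ 2 / (4 * S.card) / S.card ^ 2 ≤ 1 := by
      rw [div_div, div_le_one (by positivity)]
      have h1 : c ^ 2 ≤ 1 := by
        have := min_le_right c0 1
        nlinarith
      have h2 : (1:ℝ) ≤ 4 * S.card * S.card ^ 2 := by
        have : (1:ℝ) ≤ (S.card:ℝ) ^ 2 := by nlinarith
        nlinarith
      linarith
    linarith
  · have : 0 < c ^ 2 / (4 * S.card) / S.card ^ 2 := by positivity
    linarith
  · intro f hf
    have hch := cheeger S c hcpos hSne hiso' f hf
    have hpt : ∀ x, (∑ s ∈ S, f (s * x)) ^ 2 ≤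
        S.card * ∑ s ∈ S, f (s * x) ^ 2 - ∑ s ∈ S, (f (s * x) - f x) ^ 2 := by
      intro x
      have := sq_sum_le_var S h1S (fun s => f (s * x))
      simpa using this
    have hfs : ∀ s, Summable fun x => f (s * x) ^ 2 := fun s =>
      summable_of_supp _ (supp_sq (supp_mul hf s))
    have hds : ∀ s, Summable fun x => (f (s * x) - f x) ^ 2 := fun s => by
      refine summable_of_supp _ (supp_sq ?_)
      refine ((supp_mul hf s).union hf).subset fun x hx => ?_
      simp only [Function.mem_support, Set.mem_union] at hx ⊢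
      by_contra hcon
      push Not at hcon
      exact hx (by rw [hcon.1, hcon.2, sub_zero])
    have hsumm1 : Summable fun x => (S.card : ℝ) * ∑ s ∈ S, f (s * x) ^ 2 :=
      (summable_sum fun s _ => hfs s).mul_left _
    have hsumm2 : Summable fun x => ∑ s ∈ S, (f (s * x) - f x) ^ 2 :=
      summable_sum fun s _ => hds s
    have hsuppP : (Function.support fun x => ∑ s ∈ S, f (s * x)).Finite := by
      have : (Function.support fun x => ∑ s ∈ S, f (s * x)) ⊆
          ⋃ s ∈ S, Function.support fun x => f (s * x) := by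
        intro x hx
        simp only [Function.mem_support] at hx
        obtain ⟨s, hs, hne⟩ := Finset.exists_ne_zero_of_sum_ne_zero hx
        simp only [Set.mem_iUnion]
        exact ⟨s, hs, hne⟩
      exact (Set.Finite.biUnion S.finite_toSet fun s _ => supp_mul hf s).subset this
    have hP : Summable fun x => (∑ s ∈ S, f (s * x)) ^ 2 := summable_of_supp _ (supp_sq hsuppP)
    have h2 : ∑' x, (∑ s ∈ S, f (s * x)) ^ 2 ≤
        ∑' x, ((S.card : ℝ) * ∑ s ∈ S, f (s * x) ^ 2 - ∑ s ∈ S, (f (s * x) - f x) ^ 2) :=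
      hP.tsum_le_tsum hpt (hsumm1.sub hsumm2)
    rw [hsumm1.tsum_sub hsumm2, tsum_mul_left, Summable.tsum_finsetSum (fun s _ => hfs s),
      Summable.tsum_finsetSum (fun s _ => hds s)] at h2
    have h3 : ∑ s ∈ S, ∑' x, f (s * x) ^ 2 = S.card * ∑' x, f x ^ 2 := by
      rw [Finset.sum_congr rfl fun s _ => tsum_mul_left' (fun x => f x ^ 2) s]
      simp
    rw [h3] at h2
    have hSc0 : (S.card : ℝ) ≠ 0 := by positivity
    have e : (1 - c ^ 2 / (4 * S.card) / S.card ^ 2) * (S.card : ℝ) ^ 2 * ∑' x, f x ^ 2 =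
        S.card * (S.card * ∑' x, f x ^ 2) - c ^ 2 / (4 * S.card) * ∑' x, f x ^ 2 := by
      field_simp
    rw [e]
    linarith

open Pointwise in
/-- mixing of words: for every `k` there is a finite probability space of elements of `S ^ k` that
spreads finite sets out. -/
theorem mixing (S : Finset G) (θ : ℝ) (h1S : (1:G) ∈ S) (hθ : 0 ≤ θ)
    (hgap : ∀ f : G → ℝ, (Function.support f).Finite →
      ∑' x, (∑ s ∈ S, f (s * x)) ^ 2 ≤ θ * (S.card : ℝ) ^ 2 * ∑' x, f x ^ 2) (k : ℕ) :
    ∃ (Ω : Type) (_ : Fintype Ω) (_ : Nonempty Ω) (ev : Ω → G), (∀ ω, ev ω ∈ (S : Set G) ^ k) ∧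
      ∀ f : G → ℝ, (Function.support f).Finite →
        (Function.support fun x => ∑ ω, f (ev ω * x)).Finite ∧
        ∑' x, (∑ ω, f (ev ω * x)) ^ 2 ≤ θ ^ k * (Fintype.card Ω : ℝ) ^ 2 * ∑' x, f x ^ 2 := by
  classical
  induction k with
  | zero =>
    refine ⟨Unit, inferInstance, inferInstance, fun _ => 1, fun _ => by simp, fun f hf => ?_⟩
    simp
    exact hf
  | succ k ih =>
    obtain ⟨Ω, _, _, ev, hev, hmix⟩ := ih
    have : Nonempty S := ⟨⟨1, h1S⟩⟩
    refine ⟨Ω × S, inferInstance, inferInstance, fun p => ev p.1 * p.2, ?_, ?_⟩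
    · rintro ⟨ω, s⟩
      rw [pow_succ]
      exact Set.mul_mem_mul (hev ω) s.2
    · intro f hf
      obtain ⟨hfs, hfn⟩ := hmix f hf
      set g : G → ℝ := fun x => ∑ ω, f (ev ω * x) with hg
      have e1 : ∀ x, ∑ p : Ω × S, f (ev p.1 * p.2 * x) = ∑ s ∈ S, g (s * x) := by
        intro x
        rw [Fintype.sum_prod_type_right, Finset.sum_coe_sort S (fun s => ∑ ω, f (ev ω * s * x))]
        refine Finset.sum_congr rfl fun s _ => Finset.sum_congr rfl fun ω _ => ?_
        rw [mul_assoc]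
      simp only [e1]
      refine ⟨?_, ?_⟩
      · have : (Function.support fun x => ∑ s ∈ S, g (s * x)) ⊆
            ⋃ s ∈ S, Function.support fun x => g (s * x) := by
          intro x hx
          simp only [Function.mem_support] at hx
          obtain ⟨s, hs, hne⟩ := Finset.exists_ne_zero_of_sum_ne_zero hx
          simp only [Set.mem_iUnion]
          exact ⟨s, hs, hne⟩
        exact (Set.Finite.biUnion S.finite_toSet fun s _ => supp_mul hfs s).subset this
      · refine (hgap g hfs).trans ?_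
        have h3 : θ * (S.card : ℝ) ^ 2 * ∑' x, g x ^ 2 ≤ θ * (S.card : ℝ) ^ 2 *
            (θ ^ k * (Fintype.card Ω : ℝ) ^ 2 * ∑' x, f x ^ 2) :=
          mul_le_mul_of_nonneg_left hfn (by positivity)
        refine h3.trans (le_of_eq ?_)
        rw [Fintype.card_prod, Fintype.card_coe]
        push_cast
        ring

/-- the counting form of mixing -/
theorem mixing_count (S : Finset G) (θ : ℝ) (h1S : (1:G) ∈ S) (hθ : 0 ≤ θ)
    (hgap : ∀ f : G → ℝ, (Function.support f).Finite →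
      ∑' x, (∑ s ∈ S, f (s * x)) ^ 2 ≤ θ * (S.card : ℝ) ^ 2 * ∑' x, f x ^ 2) (k : ℕ) :
    ∃ (Ω : Type) (_ : Fintype Ω) (_ : Nonempty Ω) (ev : Ω → G),
      (∀ ω, ev ω ∈ (open Pointwise in (S : Set G) ^ k)) ∧
      ∀ E B : Finset G, (∑ h ∈ E, (({ω : Ω | ev ω * h ∈ B}.ncard : ℝ) / Fintype.card Ω)) ^ 2 ≤
        θ ^ k * (E.card * B.card) := by
  classical
  obtain ⟨Ω, i1, i2, ev, hev, hmix⟩ := mixing S θ h1S hθ hgap k
  refine ⟨Ω, i1, i2, ev, hev, fun E B => ?_⟩
  set f : G → ℝ := fun x => if x ∈ B then 1 else 0 with hf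
  have hfs : (Function.support f).Finite := B.finite_toSet.subset fun x hx => by
    simp only [Function.mem_support, hf] at hx
    by_contra h
    exact hx (if_neg h)
  obtain ⟨h1, h2⟩ := hmix f hfs
  have e1 : ∀ h, (({ω : Ω | ev ω * h ∈ B}.ncard : ℝ)) = ∑ ω, f (ev ω * h) := by
    intro h
    simp only [hf]
    rw [Finset.sum_boole, ← Set.ncard_coe_finset]
    congr 2
    ext ω
    simp
  have e2 : ∑' x, f x ^ 2 = B.card := by
    rw [tsum_eq_sum (s := B)]
    · rw [Finset.sum_congr rfl (g := fun _ => (1:ℝ)) (fun x hx => by simp [hf, hx])]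
      simp
    · intro x hx
      simp [hf, hx]
  have hΩ : (0:ℝ) < Fintype.card Ω := by exact_mod_cast Fintype.card_pos
  simp only [e1, div_eq_mul_inv]
  rw [← Finset.sum_mul, mul_pow]
  have h3 : (∑ h ∈ E, ∑ ω, f (ev ω * h)) ^ 2 ≤ E.card * ∑ h ∈ E, (∑ ω, f (ev ω * h)) ^ 2 :=
    sq_sum_le_card_mul_sum_sq
  have h4 : ∑ h ∈ E, (∑ ω, f (ev ω * h)) ^ 2 ≤ ∑' x, (∑ ω, f (ev ω * x)) ^ 2 :=
    (summable_of_supp _ (supp_sq h1)).sum_le_tsum E fun _ _ => sq_nonneg _
  rw [e2] at h2
  have h5 : (∑ h ∈ E, ∑ ω, f (ev ω * h)) ^ 2 ≤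
      E.card * (θ ^ k * (Fintype.card Ω : ℝ) ^ 2 * B.card) :=
    h3.trans (mul_le_mul_of_nonneg_left (h4.trans h2) (Nat.cast_nonneg _))
  have h6 := mul_le_mul_of_nonneg_right h5 (sq_nonneg ((Fintype.card Ω : ℝ)⁻¹))
  refine h6.trans (le_of_eq ?_)
  field_simp

end Pool.Agent.Helper277_DC
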